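import Mathlib

/-!
# Variance bound for functions with bounded differences on a product probability space
-/

open MeasureTheory

set_option linter.unusedSectionVars false

namespace TH171.Cs

variable {Ω : Type} [MeasurableSpace Ω] (ν : Measure Ω) [IsProbabilityMeasure ν]

/-- the law of the coins of `n` processors -/
noncomputable abbrev PP (n : ℕ) : Measure (Fin n → Ω) := Measure.pi (fun _ => ν)

lemma integrable_of_bdd {α : Type*} [MeasurableSpace α] {μ : Measure α} [IsFiniteMeasure μ]
    {f : α → ℝ} (hf : Measurable f) {B : ℝ} (hb : ∀ x, |f x| ≤ B) : Integrable f μ :=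
  Integrable.of_bound hf.aestronglyMeasurable B (Filter.Eventually.of_forall (fun x => by
    rw [Real.norm_eq_abs]; exact hb x))

lemma integral_succ {n : ℕ} (F : (Fin (n + 1) → Ω) → ℝ) :
    ∫ ω, F ω ∂(PP ν (n + 1)) = ∫ z, F (Fin.cons z.1 z.2) ∂(ν.prod (PP ν n)) := by
  have h := (measurePreserving_piFinSuccAbove (fun _ : Fin (n + 1) => ν) 0).symm
  rw [← h.integral_comp']
  congr 1
  funext z
  congr 1
  simp [MeasurableEquiv.piFinSuccAbove, Fin.insertNthEquiv]

lemma measurable_cons {n : ℕ} :
    Measurable (fun z : Ω × (Fin n → Ω) => (Fin.cons z.1 z.2 : Fin (n + 1) → Ω)) := by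
  rw [measurable_pi_iff]
  intro i
  refine Fin.cases ?_ (fun j => ?_) i
  · simpa using measurable_fst
  · have h : Measurable (fun z : Ω × (Fin n → Ω) => z.2 j) :=
      (measurable_pi_apply j).comp measurable_snd
    simpa using h

/-- variance of a function on one coordinate with oscillation at most `c` -/
lemma var_one {g : Ω → ℝ} (hg : Measurable g) {B c : ℝ} (hb : ∀ x, |g x| ≤ B)
    (hc : ∀ x y, |g x - g y| ≤ c) : ∫ x, (g x) ^ 2 ∂ν - (∫ x, g x ∂ν) ^ 2 ≤ c ^ 2 := by
  have hi : Integrable g ν := integrable_of_bdd hg hb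
  have hi2 : Integrable (fun x => (g x) ^ 2) ν := by
    refine integrable_of_bdd (hg.pow_const 2) (B := B ^ 2) (fun x => ?_)
    rw [abs_pow]
    exact pow_le_pow_left₀ (abs_nonneg _) (hb x) 2
  set m := ∫ x, g x ∂ν with hm
  have h1 : ∫ x, (g x - m) ^ 2 ∂ν = ∫ x, (g x) ^ 2 ∂ν - m ^ 2 := by
    have e : ∀ x, (g x - m) ^ 2 = (g x) ^ 2 - (2 * m) * g x + m ^ 2 := fun x => by ring
    simp_rw [e]
    have hi3 : Integrable (fun x => (g x) ^ 2 - (2 * m) * g x) ν := hi2.sub (hi.const_mul _)
    rw [integral_add hi3 (integrable_const _),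
      integral_sub hi2 (hi.const_mul _), integral_const_mul, integral_const]
    simp only [probReal_univ, smul_eq_mul, one_mul]
    rw [← hm]; ring
  rw [← h1]
  have h2 : ∀ x, |g x - m| ≤ c := by
    intro x
    have h3 : g x - m = ∫ y, (g x - g y) ∂ν := by
      rw [integral_sub (integrable_const _) hi, integral_const]
      simp only [probReal_univ, smul_eq_mul, one_mul]
      rfl
    rw [h3]
    have h4 := norm_integral_le_of_norm_le_const (μ := ν) (f := fun y => g x - g y) (C := c)
      (Filter.Eventually.of_forall (fun y => by rw [Real.norm_eq_abs]; exact hc x y))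
    simpa [Real.norm_eq_abs, probReal_univ] using h4
  calc ∫ x, (g x - m) ^ 2 ∂ν ≤ ∫ _x, c ^ 2 ∂ν := by
        refine integral_mono_of_nonneg (Filter.Eventually.of_forall (fun x => sq_nonneg _))
          (integrable_const _) (Filter.Eventually.of_forall (fun x => ?_))
        have := h2 x
        have h0 := abs_nonneg (g x - m)
        calc (g x - m) ^ 2 = |g x - m| ^ 2 := (sq_abs _).symm
          _ ≤ c ^ 2 := pow_le_pow_left₀ h0 this 2
    _ = c ^ 2 := by rw [integral_const]; simp [probReal_univ]

theorem var_le (n : ℕ) : ∀ (f : (Fin n → Ω) → ℝ) (_ : Measurable f) (B c : ℝ)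
    (_ : ∀ ω, |f ω| ≤ B) (_ : ∀ ω (j : Fin n) (w : Ω), |f ω - f (Function.update ω j w)| ≤ c),
    ∫ ω, (f ω) ^ 2 ∂(PP ν n) - (∫ ω, f ω ∂(PP ν n)) ^ 2 ≤ n * c ^ 2 := by
  induction n with
  | zero =>
    intro f _ B c _ _
    have h1 : ∀ ω : Fin 0 → Ω, f ω = f Fin.elim0 := fun ω => by
      congr 1; exact Subsingleton.elim _ _
    simp_rw [h1]
    rw [integral_const, integral_const]
    simp
  | succ n ih =>
    intro f hf B c hb hc
    rw [integral_succ ν (fun ω => (f ω) ^ 2), integral_succ ν f]
    have hF : Measurable (fun z : Ω × (Fin n → Ω) => f (Fin.cons z.1 z.2)) :=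
      hf.comp measurable_cons
    have hFb : ∀ z : Ω × (Fin n → Ω), |f (Fin.cons z.1 z.2)| ≤ B := fun z => hb _
    have hB : 0 ≤ B := by
      obtain ⟨x⟩ : Nonempty Ω := by
        by_contra hne
        rw [not_nonempty_iff] at hne
        have h1 : ν Set.univ = 1 := measure_univ
        rw [Set.univ_eq_empty_iff.mpr hne] at h1
        simp at h1
      exact (abs_nonneg _).trans (hb (fun _ => x))
    have iF : Integrable (fun z : Ω × (Fin n → Ω) => f (Fin.cons z.1 z.2)) (ν.prod (PP ν n)) :=
      integrable_of_bdd hF hFb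
    have iF2 : Integrable (fun z : Ω × (Fin n → Ω) => (f (Fin.cons z.1 z.2)) ^ 2)
        (ν.prod (PP ν n)) := by
      refine integrable_of_bdd (hF.pow_const 2) (B := B ^ 2) (fun z => ?_)
      rw [abs_pow]
      exact pow_le_pow_left₀ (abs_nonneg _) (hFb z) 2
    set g : (Fin n → Ω) → ℝ := fun y => ∫ x, f (Fin.cons x y) ∂ν with hg
    have hgm : Measurable g := by
      have h1 : StronglyMeasurable (fun z : Ω × (Fin n → Ω) => f (Fin.cons z.1 z.2)) :=
        hF.stronglyMeasurable
      exact h1.integral_prod_left'.measurable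
    have sect : ∀ y : Fin n → Ω, Measurable (fun x : Ω => f (Fin.cons x y)) := fun y =>
      hF.comp (measurable_id.prodMk measurable_const)
    have isect : ∀ y : Fin n → Ω, Integrable (fun x : Ω => f (Fin.cons x y)) ν := fun y =>
      integrable_of_bdd (sect y) (fun x => hb _)
    have hgb : ∀ y, |g y| ≤ B := by
      intro y
      have h4 := norm_integral_le_of_norm_le_const (μ := ν) (f := fun x => f (Fin.cons x y))
        (C := B) (Filter.Eventually.of_forall (fun x => by rw [Real.norm_eq_abs]; exact hb _))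
      simpa [Real.norm_eq_abs, probReal_univ] using h4
    have hgc : ∀ (y : Fin n → Ω) (j : Fin n) (w : Ω), |g y - g (Function.update y j w)| ≤ c := by
      intro y j w
      have h3 : g y - g (Function.update y j w)
          = ∫ x, (f (Fin.cons x y) - f (Fin.cons x (Function.update y j w))) ∂ν := by
        rw [integral_sub (isect y) (isect _)]
      rw [h3]
      have h4 := norm_integral_le_of_norm_le_const (μ := ν)
        (f := fun x => f (Fin.cons x y) - f (Fin.cons x (Function.update y j w))) (C := c)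
        (Filter.Eventually.of_forall (fun x => by
          rw [Real.norm_eq_abs, Fin.cons_update]
          exact hc _ _ _))
      simpa [Real.norm_eq_abs, probReal_univ] using h4
    have hIH := ih g hgm B c hgb hgc
    have e1 : ∫ z, f (Fin.cons z.1 z.2) ∂(ν.prod (PP ν n)) = ∫ y, g y ∂(PP ν n) :=
      integral_prod_symm _ iF
    have e2 : ∫ z, (f (Fin.cons z.1 z.2)) ^ 2 ∂(ν.prod (PP ν n))
        = ∫ y, (∫ x, (f (Fin.cons x y)) ^ 2 ∂ν) ∂(PP ν n) :=
      integral_prod_symm _ iF2
    have hg2i : Integrable (fun y => (g y) ^ 2) (PP ν n) := by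
      refine integrable_of_bdd (hgm.pow_const 2) (B := B ^ 2) (fun y => ?_)
      rw [abs_pow]
      exact pow_le_pow_left₀ (abs_nonneg _) (hgb y) 2
    have e3 : ∫ y, (∫ x, (f (Fin.cons x y)) ^ 2 ∂ν) ∂(PP ν n)
        ≤ ∫ y, ((g y) ^ 2 + c ^ 2) ∂(PP ν n) := by
      refine integral_mono iF2.integral_prod_right (hg2i.add (integrable_const _)) ?_
      intro y
      have h1 := var_one ν (sect y) (fun x => hb _) (c := c) (by
        intro x x'
        have h2 := hc (Fin.cons x y) 0 x'
        rw [Fin.update_cons_zero] at h2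
        exact h2)
      simp only
      have h2 : g y = ∫ x, f (Fin.cons x y) ∂ν := rfl
      rw [h2]
      linarith
    rw [integral_add hg2i (integrable_const _), integral_const] at e3
    simp only [probReal_univ, smul_eq_mul, one_mul] at e3
    rw [e1, e2]
    push_cast
    linarith

end TH171.Cs
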