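import Pool.Agent.TH171.Cs.Model

/-!
# Measurability of the configuration as a function of the coins
-/

set_option linter.unusedSectionVars false

namespace TH171.Cs

open scoped Classical

/-- all preimages are measurable -/
def Mb {α X : Type*} [MeasurableSpace α] (f : α → X) : Prop :=
  ∀ S : Set X, MeasurableSet (f ⁻¹' S)

lemma Mb.bind {α X Y : Type*} [MeasurableSpace α] [Countable X] {E : α → X} (hE : Mb E)
    {F : X → α → Y} (hF : ∀ x, Mb (F x)) : Mb (fun a => F (E a) a) := by
  intro S
  have h : (fun a => F (E a) a) ⁻¹' S = ⋃ x, (E ⁻¹' {x}) ∩ (F x ⁻¹' S) := by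
    ext a; simp
  rw [h]
  exact MeasurableSet.iUnion (fun x => (hE _).inter (hF x S))

lemma Mb.comp {α X Y : Type*} [MeasurableSpace α] {E : α → X} (hE : Mb E) (F : X → Y) :
    Mb (fun a => F (E a)) := fun S => hE (F ⁻¹' S)

lemma Mb.const {α X : Type*} [MeasurableSpace α] (x : X) : Mb (fun _ : α => x) := by
  intro S
  by_cases h : x ∈ S
  · have : (fun _ : α => x) ⁻¹' S = Set.univ := by ext; simp [h]
    rw [this]; exact MeasurableSet.univ
  · have : (fun _ : α => x) ⁻¹' S = ∅ := by ext; simp [h]
    rw [this]; exact MeasurableSet.empty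

lemma Mb.of_singleton {α X : Type*} [MeasurableSpace α] [Countable X] {f : α → X}
    (h : ∀ x, MeasurableSet {a | f a = x}) : Mb f := by
  intro S
  have h1 : f ⁻¹' S = ⋃ x ∈ S, {a | f a = x} := by ext a; simp
  rw [h1]
  exact MeasurableSet.biUnion (Set.to_countable S) (fun x _ => h x)

variable {n : ℕ} {Ω R V : Type} [MeasurableSpace Ω]

instance [Countable R] [Countable V] : Countable (Act R V) := by
  let F : Act R V → R ⊕ ((R × V) ⊕ Bool) := fun a =>
    match a with
    | Act.read r => Sum.inl r
    | Act.write r v => Sum.inr (Sum.inl (r, v))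
    | Act.out c => Sum.inr (Sum.inr c)
  have hF : Function.Injective F := by
    intro a a' h
    cases a <;> cases a' <;> simp_all [F]
  exact hF.countable

/-- all parts of a random configuration are measurable -/
structure Good {α : Type*} [MeasurableSpace α] (C : α → Conf n R V) : Prop where
  hist : ∀ i, Mb (fun a => (C a).hist i)
  dec : ∀ i, Mb (fun a => (C a).dec i)
  mem : ∀ r, Mb (fun a => (C a).mem r)
  ops : Mb (fun a => (C a).ops)

/-- the effect of an action, all data given -/
noncomputable def G (p : Fin n) (d : Option Bool) (h : List (Option V)) (a : Act R V)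
    (C : Conf n R V) : Conf n R V :=
  if d.isSome then C else
    match a with
    | Act.read r => ⟨Function.update C.hist p (some (C.mem r) :: h), C.dec, C.mem, C.ops + 1⟩
    | Act.write r v => ⟨Function.update C.hist p (none :: h), C.dec,
        Function.update C.mem r v, C.ops + 1⟩
    | Act.out c => ⟨C.hist, Function.update C.dec p (some c), C.mem, C.ops⟩

lemma step_eq_G (A : Alg n Ω R V) (b : Fin n → Bool) (ω : Fin n → Ω) (C : Conf n R V)
    (p : Fin n) : step A b ω C p
      = G p (C.dec p) (C.hist p) (A.act p (b p) (ω p) (C.hist p)) C := rfl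

lemma good_G {α : Type*} [MeasurableSpace α] {C : α → Conf n R V} (hC : Good C) (p : Fin n)
    (d : Option Bool) (h : List (Option V)) (a : Act R V) : Good (fun x => G p d h a (C x)) := by
  unfold G
  by_cases hd : d.isSome
  · simpa only [hd, if_true] using hC
  · simp only [hd, Bool.false_eq_true, if_false]
    cases a with
    | read r =>
      refine ⟨fun i => ?_, hC.dec, hC.mem, hC.ops.comp (fun k => k + 1)⟩
      by_cases hi : i = p
      · subst hi
        simp only [Function.update_self]
        exact (hC.mem r).comp (fun v => some v :: h)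
      · simp only [Function.update_of_ne hi]
        exact hC.hist i
    | write r v =>
      refine ⟨fun i => ?_, hC.dec, fun r' => ?_, hC.ops.comp (fun k => k + 1)⟩
      · by_cases hi : i = p
        · subst hi
          simp only [Function.update_self]
          exact Mb.const _
        · simp only [Function.update_of_ne hi]
          exact hC.hist i
      · by_cases hr : r' = r
        · subst hr
          simp only [Function.update_self]
          exact Mb.const _
        · simp only [Function.update_of_ne hr]
          exact hC.mem r'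
    | out c =>
      refine ⟨hC.hist, fun i => ?_, hC.mem, hC.ops⟩
      by_cases hi : i = p
      · subst hi
        simp only [Function.update_self]
        exact Mb.const _
      · simp only [Function.update_of_ne hi]
        exact hC.dec i

variable [Countable R] [Countable V]

lemma good_step (A : Alg n Ω R V) (b : Fin n → Bool) {C : (Fin n → Ω) → Conf n R V}
    (hC : Good C) (p : Fin n) : Good (fun ω => step A b ω (C ω) p) := by
  have hact : ∀ h : List (Option V), Mb (fun ω : Fin n → Ω => A.act p (b p) (ω p) h) := by
    intro h
    refine Mb.of_singleton (fun a => ?_)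
    exact (A.meas p (b p) h a).preimage (measurable_pi_apply p)
  have key : ∀ {X : Type} (f : Conf n R V → X),
      (∀ d h a, Mb (fun ω => f (G p d h a (C ω)))) → Mb (fun ω => f (step A b ω (C ω) p)) := by
    intro X f hf
    simp only [step_eq_G]
    refine (hC.dec p).bind (F := fun d ω =>
      f (G p d ((C ω).hist p) (A.act p (b p) (ω p) ((C ω).hist p)) (C ω))) (fun d => ?_)
    refine (hC.hist p).bind (F := fun h ω =>
      f (G p d h (A.act p (b p) (ω p) h) (C ω))) (fun h => ?_)
    exact (hact h).bind (F := fun a ω => f (G p d h a (C ω))) (fun a => hf d h a)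
  refine ⟨fun i => ?_, fun i => ?_, fun r => ?_, ?_⟩
  · exact key (fun c => c.hist i) (fun d h a => (good_G hC p d h a).hist i)
  · exact key (fun c => c.dec i) (fun d h a => (good_G hC p d h a).dec i)
  · exact key (fun c => c.mem r) (fun d h a => (good_G hC p d h a).mem r)
  · exact key (fun c => c.ops) (fun d h a => (good_G hC p d h a).ops)

lemma good_start (A : Alg n Ω R V) : Good (fun _ : Fin n → Ω => start A) :=
  ⟨fun _ => Mb.const _, fun _ => Mb.const _, fun _ => Mb.const _, Mb.const _⟩

lemma good_exec (A : Alg n Ω R V) (b : Fin n → Bool) (l : List (Fin n)) :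
    ∀ {C : (Fin n → Ω) → Conf n R V}, Good C → Good (fun ω => exec A b ω (C ω) l) := by
  induction l with
  | nil => intro C hC; exact hC
  | cons p l ih => intro C hC; exact ih (good_step A b hC p)

lemma good_rounds (A : Alg n Ω R V) (b : Fin n → Bool) (s : ℕ) :
    Good (fun ω => rounds A b ω s) := by
  induction s with
  | zero => exact good_start A
  | succ s ih => exact good_exec A b _ ih

/-- the fraction of processors whose output satisfies `P` after `s` rounds -/
noncomputable def frac (A : Alg n Ω R V) (b : Fin n → Bool) (s : ℕ) (P : Option Bool → Prop)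
    (ω : Fin n → Ω) : ℝ :=
  ((Finset.univ.filter (fun i => P ((rounds A b ω s).dec i))).card : ℝ) / n

lemma measurable_frac (A : Alg n Ω R V) (b : Fin n → Bool) (s : ℕ) (P : Option Bool → Prop) :
    Measurable (frac A b s P) := by
  unfold frac
  refine Measurable.div_const ?_ _
  have h : ∀ ω : Fin n → Ω, ((Finset.univ.filter (fun i => P ((rounds A b ω s).dec i))).card : ℝ)
      = ∑ i, if P ((rounds A b ω s).dec i) then (1 : ℝ) else 0 := by
    intro ω
    rw [Finset.card_filter]
    push_cast
    rfl
  simp_rw [h]
  refine Finset.measurable_sum _ (fun i _ => ?_)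
  exact Measurable.ite ((good_rounds A b s).dec i {x | P x}) measurable_const measurable_const

lemma frac_nonneg (A : Alg n Ω R V) (b : Fin n → Bool) (s : ℕ) (P : Option Bool → Prop)
    (ω : Fin n → Ω) : 0 ≤ frac A b s P ω := by
  unfold frac
  positivity

lemma frac_le_one (A : Alg n Ω R V) (b : Fin n → Bool) (s : ℕ) (P : Option Bool → Prop)
    (ω : Fin n → Ω) : frac A b s P ω ≤ 1 := by
  unfold frac
  refine div_le_one_of_le₀ ?_ (by positivity)
  have h := Finset.card_le_univ (Finset.univ.filter (fun i => P ((rounds A b ω s).dec i)))
  rw [Fintype.card_fin] at h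
  exact_mod_cast h

lemma frac_diff (A : Alg n Ω R V) {b b' : Fin n → Bool} {ω ω' : Fin n → Ω} {j : Fin n}
    (hb : ∀ q, q ≠ j → b q = b' q) (hω : ∀ q, q ≠ j → ω q = ω' q) (s : ℕ)
    (P : Option Bool → Prop) :
    |frac A b s P ω - frac A b' s P ω'| ≤ 3 ^ s / n := by
  have h1 := card_dec_diff A hb hω s P
  have h2 := card_dec_diff A (fun q hq => (hb q hq).symm) (fun q hq => (hω q hq).symm) s P
  unfold frac
  rw [← sub_div, abs_div, Nat.abs_cast]
  refine div_le_div_of_nonneg_right ?_ (by positivity)
  rw [abs_le]
  constructor <;> linarith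

end TH171.Cs
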