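import Pool.Agent.TH171.Cs.ES
import Pool.Agent.TH171.Cs.Meas

/-!
# The lower bound for the round robin schedule
-/

set_option linter.unusedSectionVars false

namespace TH171.Cs

open scoped Classical ENNReal
open MeasureTheory

variable {n : ℕ} {Ω R V : Type} [MeasurableSpace Ω] [Countable R] [Countable V]
variable (ν : Measure Ω) [IsProbabilityMeasure ν]

/-- a.s. agreement and validity for all inputs after `s` rounds -/
structure SolvesR (A : Alg n Ω R V) (s : ℕ) : Prop where
  agree : ∀ b, ∀ᵐ ω ∂(PP ν n), ∀ i j x y, (rounds A b ω s).dec i = some x →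
    (rounds A b ω s).dec j = some y → x = y
  valid : ∀ b, ∀ᵐ ω ∂(PP ν n), ∀ i x, (rounds A b ω s).dec i = some x → ∃ k, b k = x

noncomputable abbrev YY (A : Alg n Ω R V) (s : ℕ) (b : Fin n → Bool) : (Fin n → Ω) → ℝ :=
  frac A b s (fun x => x = some true)

noncomputable abbrev ZZ (A : Alg n Ω R V) (s : ℕ) (b : Fin n → Bool) : (Fin n → Ω) → ℝ :=
  frac A b s (fun x => x = some false)

noncomputable abbrev UU (A : Alg n Ω R V) (s : ℕ) (b : Fin n → Bool) : (Fin n → Ω) → ℝ :=
  frac A b s (fun x => x = none)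

lemma frac_zero (A : Alg n Ω R V) (s : ℕ) (b : Fin n → Bool) (P : Option Bool → Prop)
    (ω : Fin n → Ω) (h : ∀ i, ¬ P ((rounds A b ω s).dec i)) : frac A b s P ω = 0 := by
  unfold frac
  have h2 : Finset.univ.filter (fun i => P ((rounds A b ω s).dec i)) = ∅ := by
    rw [Finset.filter_eq_empty_iff]
    exact fun i _ => h i
  rw [h2]
  simp

lemma exists_of_frac (A : Alg n Ω R V) (s : ℕ) (b : Fin n → Bool) (P : Option Bool → Prop)
    (ω : Fin n → Ω) (h : frac A b s P ω ≠ 0) : ∃ i, P ((rounds A b ω s).dec i) := by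
  by_contra hc
  push Not at hc
  exact h (frac_zero A s b P ω hc)

lemma frac_sum (hn : 0 < n) (A : Alg n Ω R V) (s : ℕ) (b : Fin n → Bool) (ω : Fin n → Ω) :
    YY A s b ω + ZZ A s b ω + UU A s b ω = 1 := by
  unfold YY ZZ UU frac
  rw [← add_div, ← add_div, div_eq_one_iff_eq (by positivity)]
  have h : (Finset.univ.filter (fun i => (rounds A b ω s).dec i = some true)).card
      + (Finset.univ.filter (fun i => (rounds A b ω s).dec i = some false)).card
      + (Finset.univ.filter (fun i => (rounds A b ω s).dec i = none)).card = n := by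
    rw [Finset.card_filter, Finset.card_filter, Finset.card_filter, ← Finset.sum_add_distrib,
      ← Finset.sum_add_distrib]
    have h1 : ∀ i ∈ (Finset.univ : Finset (Fin n)),
        ((if (rounds A b ω s).dec i = some true then 1 else 0)
        + (if (rounds A b ω s).dec i = some false then 1 else 0))
        + (if (rounds A b ω s).dec i = none then 1 else 0) = 1 := by
      intro i _
      rcases (rounds A b ω s).dec i with _ | x
      · simp
      · cases x <;> simp
    rw [Finset.sum_congr rfl h1]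
    simp
  have h' : ((Finset.univ.filter (fun i => (rounds A b ω s).dec i = some true)).card : ℝ)
      + ((Finset.univ.filter (fun i => (rounds A b ω s).dec i = some false)).card : ℝ)
      + ((Finset.univ.filter (fun i => (rounds A b ω s).dec i = none)).card : ℝ) = n := by
    exact_mod_cast h
  convert h'

lemma int_frac (A : Alg n Ω R V) (s : ℕ) (b : Fin n → Bool) (P : Option Bool → Prop) :
    Integrable (frac A b s P) (PP ν n) :=
  integrable_of_bdd (measurable_frac A b s P) (B := 1) (fun ω => by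
    rw [abs_of_nonneg (frac_nonneg A b s P ω)]; exact frac_le_one A b s P ω)

/-- the variance inequality -/
lemma exists_undec (hn : 0 < n) (A : Alg n Ω R V) (s : ℕ) (hs : 33 * 9 ^ s ≤ n)
    (hS : SolvesR ν A s) : ∃ b, 1 / 8 < ∫ ω, UU A s b ω ∂(PP ν n) := by
  by_contra hcon
  push Not at hcon
  have hn' : (0 : ℝ) < n := by exact_mod_cast hn
  -- the inputs
  set bk : ℕ → Fin n → Bool := fun k i => decide (i.val < k) with hbk
  set y : ℕ → ℝ := fun k => ∫ ω, YY A s (bk k) ω ∂(PP ν n) with hy
  have h33 : (33 : ℝ) * 9 ^ s ≤ n := by exact_mod_cast hs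
  have h39 : (3 : ℝ) ^ s ≤ 9 ^ s := pow_le_pow_left₀ (by norm_num) (by norm_num) s
  have h3n : (3 : ℝ) ^ s / n ≤ 1 / 33 := by
    rw [div_le_div_iff₀ hn' (by norm_num)]
    linarith
  -- step
  have hstep : ∀ k, y (k + 1) ≤ y k + 1 / 33 := by
    intro k
    have h1 : ∀ ω, YY A s (bk (k + 1)) ω ≤ YY A s (bk k) ω + 1 / 33 := by
      intro ω
      by_cases hk : k < n
      · have h2 := frac_diff A (b := bk (k + 1)) (b' := bk k) (ω := ω) (ω' := ω) (j := ⟨k, hk⟩)
          (fun q hq => by
            have hq' : q.val ≠ k := fun h => hq (Fin.ext h)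
            simp only [hbk]
            congr 1
            apply propext
            omega) (fun q _ => rfl) s (fun x => x = some true)
        have h3 := le_abs_self (frac A (bk (k + 1)) s (fun x => x = some true) ω
          - frac A (bk k) s (fun x => x = some true) ω)
        show frac A (bk (k + 1)) s (fun x => x = some true) ω
          ≤ frac A (bk k) s (fun x => x = some true) ω + 1 / 33
        linarith
      · have h2 : bk (k + 1) = bk k := by
          funext q
          simp only [hbk]
          congr 1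
          apply propext
          have := q.isLt
          omega
        rw [h2]
        linarith
    have h4 : ∫ ω, YY A s (bk (k + 1)) ω ∂(PP ν n)
        ≤ ∫ ω, (YY A s (bk k) ω + 1 / 33) ∂(PP ν n) :=
      integral_mono (int_frac ν A s _ _) ((int_frac ν A s _ _).add (integrable_const _)) h1
    rw [integral_add (int_frac ν A s _ _) (integrable_const _), integral_const] at h4
    simpa [probReal_univ] using h4
  have h0 : y 0 = 0 := by
    have h1 : YY A s (bk 0) =ᵐ[PP ν n] fun _ => 0 := by
      filter_upwards [hS.valid (bk 0)] with ω hω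
      refine frac_zero A s (bk 0) (fun x => x = some true) ω (fun i hi => ?_)
      obtain ⟨k, hk⟩ := hω i true hi
      simp [hbk] at hk
    show ∫ ω, YY A s (bk 0) ω ∂(PP ν n) = 0
    rw [integral_congr_ae h1]
    simp
  have hnn : 1 / 4 ≤ y n := by
    have h1 : (fun ω => 1 - UU A s (bk n) ω) =ᵐ[PP ν n] YY A s (bk n) := by
      filter_upwards [hS.valid (bk n)] with ω hω
      have h3 := frac_sum hn A s (bk n) ω
      have h2 : ZZ A s (bk n) ω = 0 := by
        refine frac_zero A s (bk n) (fun x => x = some false) ω (fun i hi => ?_)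
        obtain ⟨k, hk⟩ := hω i false hi
        simp [hbk] at hk
      linarith
    show 1 / 4 ≤ ∫ ω, YY A s (bk n) ω ∂(PP ν n)
    rw [← integral_congr_ae h1, integral_sub (integrable_const _) (int_frac ν A s _ _),
      integral_const]
    have h4 := hcon (bk n)
    simp only [probReal_univ, smul_eq_mul, one_mul]
    linarith
  -- the crossing point
  have hex : ∃ k, 1 / 4 ≤ y k := ⟨n, hnn⟩
  obtain ⟨k, hk1, hk2⟩ : ∃ k, 1 / 4 ≤ y k ∧ y k ≤ 1 / 4 + 1 / 33 := by
    refine ⟨Nat.find hex, Nat.find_spec hex, ?_⟩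
    have hne : Nat.find hex ≠ 0 := by
      intro h
      have h1 := Nat.find_spec hex
      rw [h, h0] at h1
      norm_num at h1
    obtain ⟨m, hm⟩ := Nat.exists_eq_succ_of_ne_zero hne
    have h1 : ¬ (1 / 4 ≤ y m) := Nat.find_min hex (by omega)
    rw [hm]
    have h2 := hstep m
    push Not at h1
    show y (m + 1) ≤ _
    linarith
  -- variance
  have hvar := var_le ν n (YY A s (bk k)) (measurable_frac A _ s _) 1 (3 ^ s / n)
    (fun ω => by rw [abs_of_nonneg (frac_nonneg A _ s _ ω)]; exact frac_le_one A _ s _ ω)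
    (fun ω j w => frac_diff A (fun _ _ => rfl)
      (fun q hq => by rw [Function.update_of_ne hq]) s _)
  have hv2 : (n : ℝ) * (3 ^ s / n) ^ 2 ≤ 1 / 33 := by
    have e : (n : ℝ) * (3 ^ s / n) ^ 2 = 9 ^ s / n := by
      rw [div_pow, ← pow_mul, mul_comm s 2, pow_mul]
      field_simp
      norm_num
    rw [e, div_le_div_iff₀ hn' (by norm_num)]
    linarith
  have hlow : ∫ ω, YY A s (bk k) ω ∂(PP ν n) - ∫ ω, UU A s (bk k) ω ∂(PP ν n)
      ≤ ∫ ω, (YY A s (bk k) ω) ^ 2 ∂(PP ν n) := by
    rw [← integral_sub (int_frac ν A s _ _) (int_frac ν A s _ _)]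
    refine integral_mono_ae ((int_frac ν A s _ _).sub (int_frac ν A s _ _)) ?_ ?_
    · refine integrable_of_bdd ((measurable_frac A _ s _).pow_const 2) (B := 1) (fun ω => ?_)
      rw [abs_pow, abs_of_nonneg (frac_nonneg A _ s _ ω)]
      exact pow_le_one₀ (frac_nonneg A _ s _ ω) (frac_le_one A _ s _ ω)
    · filter_upwards [hS.agree (bk k)] with ω hω
      have h3 := frac_sum hn A s (bk k) ω
      have hY0 := frac_nonneg A (bk k) s (fun x => x = some true) ω
      have hY1 := frac_le_one A (bk k) s (fun x => x = some true) ω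
      have hU0 := frac_nonneg A (bk k) s (fun x => x = none) ω
      have h5 : YY A s (bk k) ω = 0 ∨ ZZ A s (bk k) ω = 0 := by
        by_contra hne
        push Not at hne
        obtain ⟨hne1, hne2⟩ := hne
        obtain ⟨i, hi⟩ := exists_of_frac A s (bk k) (fun x => x = some true) ω hne1
        obtain ⟨j, hj⟩ := exists_of_frac A s (bk k) (fun x => x = some false) ω hne2
        have := hω i j true false hi hj
        simp at this
      show YY A s (bk k) ω - UU A s (bk k) ω ≤ (YY A s (bk k) ω) ^ 2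
      rcases h5 with h5 | h5
      · rw [h5]
        have : 0 ≤ UU A s (bk k) ω := hU0
        nlinarith
      · have e3 : YY A s (bk k) ω = 1 - UU A s (bk k) ω := by linarith
        have e4 : 0 ≤ UU A s (bk k) ω := hU0
        rw [e3]
        nlinarith [sq_nonneg (UU A s (bk k) ω)]
  have hu := hcon (bk k)
  have hyk : ∫ ω, YY A s (bk k) ω ∂(PP ν n) = y k := rfl
  rw [hyk] at hvar hlow
  nlinarith

/-- the number of rounds -/
lemma log_bound (hn : 297 ≤ n) :
    33 * 9 ^ (Nat.log 9 (n / 33)) ≤ n ∧ Real.log n ≤ 8 * (Nat.log 9 (n / 33) : ℝ) := by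
  set s := Nat.log 9 (n / 33) with hs
  have h1 : 9 ≤ n / 33 := by omega
  have h2 : 9 ^ s ≤ n / 33 := Nat.pow_log_le_self 9 (by omega)
  have h3 : n / 33 < 9 ^ (s + 1) := Nat.lt_pow_succ_log_self (by norm_num) _
  have h4 : 1 ≤ s := Nat.log_pos (by norm_num) h1
  refine ⟨by omega, ?_⟩
  have h5 : n < 33 * 9 ^ (s + 1) := by omega
  have h6 : (n : ℝ) < 297 * 9 ^ s := by
    have : (n : ℝ) < 33 * 9 ^ (s + 1) := by exact_mod_cast h5
    rw [pow_succ] at this
    linarith
  have h7 : (297 : ℝ) ≤ 297 ^ s := by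
    calc (297 : ℝ) = 297 ^ 1 := by norm_num
      _ ≤ 297 ^ s := pow_le_pow_right₀ (by norm_num) h4
  have h8 : (n : ℝ) ≤ (Real.exp 8) ^ s := by
    calc (n : ℝ) ≤ 297 * 9 ^ s := h6.le
      _ ≤ 297 ^ s * 9 ^ s := mul_le_mul_of_nonneg_right h7 (by positivity)
      _ = (297 * 9) ^ s := (mul_pow _ _ _).symm
      _ ≤ (Real.exp 8) ^ s := by
        refine pow_le_pow_left₀ (by norm_num) ?_ s
        have e : Real.exp 8 = (Real.exp 1) ^ 8 := by
          rw [← Real.exp_nat_mul]; norm_num
        rw [e]
        have h9 := Real.exp_one_gt_d9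
        calc (297 * 9 : ℝ) ≤ (2.7182818283 : ℝ) ^ 8 := by norm_num
          _ ≤ (Real.exp 1) ^ 8 := pow_le_pow_left₀ (by norm_num) h9.le 8
  have h10 : (0 : ℝ) < n := by
    have : 0 < n := by omega
    exact_mod_cast this
  rw [← Real.exp_nat_mul] at h8
  have h11 := (Real.log_le_iff_le_exp h10).mpr h8
  linarith

/-- The expected total work under the schedule `σ` with input `b`. -/
noncomputable def work (A : Alg n Ω R V) (b : Fin n → Bool) (σ : ℕ → Fin n) : ℝ≥0∞ :=
  ∫⁻ ω, (⨆ t, ((run A b ω σ t).ops : ℝ≥0∞)) ∂(PP ν n)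

theorem main_bound (hn : 297 ≤ n) (A : Alg n Ω R V)
    (hS : ∀ s, SolvesR ν A s) :
    ∃ b, ENNReal.ofReal (n * Real.log n / 64) ≤ work ν A b (robin n (by omega)) := by
  obtain ⟨h1, h2⟩ := log_bound hn
  set s := Nat.log 9 (n / 33) with hs
  obtain ⟨b, hb⟩ := exists_undec ν (by omega) A s h1 (hS s)
  refine ⟨b, ?_⟩
  have hn0 : (0 : ℝ) < n := by
    have : 0 < n := by omega
    exact_mod_cast this
  have h3 : ENNReal.ofReal (∫ ω, (s * n) * UU A s b ω ∂(PP ν n))
      ≤ work ν A b (robin n (by omega)) := by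
    rw [ofReal_integral_eq_lintegral_ofReal ((int_frac ν A s b _).const_mul _)
      (Filter.Eventually.of_forall (fun ω =>
        mul_nonneg (by positivity) (frac_nonneg A b s _ ω)))]
    refine lintegral_mono (fun ω => ?_)
    refine le_trans ?_ (le_iSup _ (s * n))
    rw [run_rounds]
    have h4 := rounds_ops_ge A b ω s
    have h5 : (s * n : ℝ) * UU A s b ω
        = ((s * (Finset.univ.filter (fun i => (rounds A b ω s).dec i = none)).card : ℕ) : ℝ) := by
      unfold UU frac
      push_cast
      field_simp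
    show ENNReal.ofReal ((s * n : ℝ) * UU A s b ω) ≤ _
    rw [h5, ENNReal.ofReal_natCast]
    exact_mod_cast h4
  refine le_trans (ENNReal.ofReal_le_ofReal ?_) h3
  rw [integral_const_mul]
  have h6 : (s * n : ℝ) * (1 / 8) ≤ (s * n : ℝ) * ∫ ω, UU A s b ω ∂(PP ν n) :=
    mul_le_mul_of_nonneg_left hb.le (by positivity)
  have h7 : (n : ℝ) * Real.log n ≤ n * (8 * s) := mul_le_mul_of_nonneg_left h2 hn0.le
  linarith

end TH171.Cs
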