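import Mathlib

/-!
# Randomized consensus algorithms with single-reader single-writer registers
-/

set_option linter.unusedSectionVars false

namespace TH171.Cs

open scoped Classical

/-- What a processor does when it is scheduled: read a register, write a value into a register,
or output a bit and halt. -/
inductive Act (R V : Type) where
  | read (r : R) : Act R V
  | write (r : R) (v : V) : Act R V
  | out (b : Bool) : Act R V

/-- A randomized algorithm for `n` processors. Every register `r : R` has one designated writer and
one designated reader. The action of processor `i` depends on its own input bit, its own random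
source (a point of `Ω`) and the list of the responses to its own earlier operations (`some v` for a
read that returned `v`, `none` for a write); its own earlier actions are determined by these. -/
structure Alg (n : ℕ) (Ω R V : Type) [MeasurableSpace Ω] where
  /-- the only processor that may write the register -/
  writer : R → Fin n
  /-- the only processor that may read the register -/
  reader : R → Fin n
  /-- the initial content of the register -/
  init : R → V
  /-- the next action of a processor -/
  act : Fin n → Bool → Ω → List (Option V) → Act R V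
  read_ok : ∀ i b w h r, act i b w h = Act.read r → reader r = i
  write_ok : ∀ i b w h r v, act i b w h = Act.write r v → writer r = i
  meas : ∀ i b h a, MeasurableSet {w : Ω | act i b w h = a}

/-- A configuration: the past responses of every processor, the outputs, the contents of the
registers, and the number of read and write operations executed so far. -/
structure Conf (n : ℕ) (R V : Type) where
  hist : Fin n → List (Option V)
  dec : Fin n → Option Bool
  mem : R → V
  ops : ℕ

variable {n : ℕ} {Ω R V : Type} [MeasurableSpace Ω]

/-- the initial configuration -/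
def start (A : Alg n Ω R V) : Conf n R V := ⟨fun _ => [], fun _ => none, A.init, 0⟩

/-- Processor `p` is scheduled: if it has not output yet, it executes its next action. -/
noncomputable def step (A : Alg n Ω R V) (b : Fin n → Bool) (ω : Fin n → Ω) (C : Conf n R V)
    (p : Fin n) : Conf n R V :=
  if (C.dec p).isSome then C else
    match A.act p (b p) (ω p) (C.hist p) with
    | Act.read r => ⟨Function.update C.hist p (some (C.mem r) :: C.hist p), C.dec, C.mem,
        C.ops + 1⟩
    | Act.write r v => ⟨Function.update C.hist p (none :: C.hist p), C.dec,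
        Function.update C.mem r v, C.ops + 1⟩
    | Act.out c => ⟨C.hist, Function.update C.dec p (some c), C.mem, C.ops⟩

/-- The configuration after the first `t` time units of the schedule `σ`. -/
noncomputable def run (A : Alg n Ω R V) (b : Fin n → Bool) (ω : Fin n → Ω) (σ : ℕ → Fin n) :
    ℕ → Conf n R V
  | 0 => start A
  | t + 1 => step A b ω (run A b ω σ t) (σ t)

/-- executing a list of scheduled processors -/
noncomputable def exec (A : Alg n Ω R V) (b : Fin n → Bool) (ω : Fin n → Ω) (C : Conf n R V)
    (l : List (Fin n)) : Conf n R V := l.foldl (step A b ω) C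

/-! ### Two executions that differ in the input and the coins of one processor -/

/-- processors whose local state differs, and `j` -/
noncomputable def EE (j : Fin n) (C C' : Conf n R V) : Finset (Fin n) :=
  Finset.univ.filter (fun p => p = j ∨ C.hist p ≠ C'.hist p ∨ C.dec p ≠ C'.dec p)

/-- in addition, the readers of registers with different contents -/
noncomputable def DD (A : Alg n Ω R V) (j : Fin n) (C C' : Conf n R V) : Finset (Fin n) :=
  Finset.univ.filter (fun p => p ∈ EE j C C' ∨ ∃ r, A.reader r = p ∧ C.mem r ≠ C'.mem r)

lemma EE_sub_DD (A : Alg n Ω R V) (j : Fin n) (C C' : Conf n R V) : EE j C C' ⊆ DD A j C C' := by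
  intro p hp
  simp only [DD, Finset.mem_filter, Finset.mem_univ, true_and]
  exact Or.inl hp

lemma mem_EE {j p : Fin n} {C C' : Conf n R V} :
    p ∈ EE j C C' ↔ p = j ∨ C.hist p ≠ C'.hist p ∨ C.dec p ≠ C'.dec p := by
  simp [EE]

lemma mem_DD {A : Alg n Ω R V} {j p : Fin n} {C C' : Conf n R V} :
    p ∈ DD A j C C' ↔ p ∈ EE j C C' ∨ ∃ r, A.reader r = p ∧ C.mem r ≠ C'.mem r := by
  simp [DD]

variable (A : Alg n Ω R V)

/-- the local state of a processor changes only by its own steps -/
lemma step_hist_ne (b : Fin n → Bool) (ω : Fin n → Ω) (C : Conf n R V) {p q : Fin n}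
    (h : q ≠ p) : (step A b ω C p).hist q = C.hist q := by
  unfold step
  split_ifs with h1
  · rfl
  · cases A.act p (b p) (ω p) (C.hist p) <;> simp [Function.update_of_ne h]

lemma step_dec_ne (b : Fin n → Bool) (ω : Fin n → Ω) (C : Conf n R V) {p q : Fin n}
    (h : q ≠ p) : (step A b ω C p).dec q = C.dec q := by
  unfold step
  split_ifs with h1
  · rfl
  · cases A.act p (b p) (ω p) (C.hist p) <;> simp [Function.update_of_ne h]

lemma step_EE_ne {b b' : Fin n → Bool} {ω ω' : Fin n → Ω} {C C' : Conf n R V} {j p q : Fin n}
    (h : q ≠ p) : q ∈ EE j (step A b ω C p) (step A b' ω' C' p) ↔ q ∈ EE j C C' := by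
  rw [mem_EE, mem_EE, step_hist_ne A b ω C h, step_hist_ne A b' ω' C' h, step_dec_ne A b ω C h,
    step_dec_ne A b' ω' C' h]

/-- a step writes at most one register -/
lemma step_mem (b : Fin n → Bool) (ω : Fin n → Ω) (C : Conf n R V) (p : Fin n) :
    (step A b ω C p).mem = C.mem ∨ ∃ r0, ∀ r, r ≠ r0 → (step A b ω C p).mem r = C.mem r := by
  unfold step
  split_ifs with h1
  · exact Or.inl rfl
  · cases A.act p (b p) (ω p) (C.hist p) with
    | read r => exact Or.inl rfl
    | write r v =>
      refine Or.inr ⟨r, fun r' hr' => ?_⟩
      simp [Function.update_of_ne hr']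
    | out c => exact Or.inl rfl

/-- a step of a processor outside `EE` creates no new differences outside `DD` -/
lemma step_clean {b b' : Fin n → Bool} {ω ω' : Fin n → Ω} {C C' : Conf n R V} {j p : Fin n}
    (hb : ∀ q, q ≠ j → b q = b' q) (hω : ∀ q, q ≠ j → ω q = ω' q) (hp : p ∉ EE j C C') :
    DD A j (step A b ω C p) (step A b' ω' C' p) ⊆ DD A j C C' := by
  rw [mem_EE] at hp
  push Not at hp
  obtain ⟨hpj, hh, hd⟩ := hp
  intro q hq
  by_contra hn
  rw [mem_DD] at hn
  push Not at hn
  obtain ⟨hqE, hqm⟩ := hn
  rw [mem_EE] at hqE
  push Not at hqE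
  obtain ⟨hqj, hqh, hqd⟩ := hqE
  rw [mem_DD, mem_EE] at hq
  unfold step at hq
  rw [← hb p hpj, ← hω p hpj, ← hh, ← hd] at hq
  by_cases hs : (C.dec p).isSome
  · simp only [hs, if_true] at hq
    rcases hq with (h | h | h) | ⟨r, h1, h2⟩
    · exact hqj h
    · exact h hqh
    · exact h hqd
    · exact h2 (hqm r h1)
  · simp only [hs] at hq
    cases hact : A.act p (b p) (ω p) (C.hist p) with
    | read r0 =>
      have hr0 := A.read_ok _ _ _ _ _ hact
      simp only [hact, Bool.false_eq_true, if_false] at hq
      rcases hq with (h | h | h) | ⟨r, h1, h2⟩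
      · exact hqj h
      · by_cases hqp : q = p
        · subst hqp
          apply h
          rw [Function.update_self, Function.update_self, hqm r0 hr0]
        · rw [Function.update_of_ne hqp, Function.update_of_ne hqp] at h
          exact h hqh
      · exact h hqd
      · exact h2 (hqm r h1)
    | write r0 v =>
      simp only [hact, Bool.false_eq_true, if_false] at hq
      rcases hq with (h | h | h) | ⟨r, h1, h2⟩
      · exact hqj h
      · by_cases hqp : q = p
        · subst hqp
          apply h
          rw [Function.update_self, Function.update_self]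
        · rw [Function.update_of_ne hqp, Function.update_of_ne hqp] at h
          exact h hqh
      · exact h hqd
      · by_cases hr : r = r0
        · subst hr
          rw [Function.update_self, Function.update_self] at h2
          exact h2 rfl
        · rw [Function.update_of_ne hr, Function.update_of_ne hr] at h2
          exact h2 (hqm r h1)
    | out c =>
      simp only [hact, Bool.false_eq_true, if_false] at hq
      rcases hq with (h | h | h) | ⟨r, h1, h2⟩
      · exact hqj h
      · exact h hqh
      · by_cases hqp : q = p
        · subst hqp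
          apply h
          rw [Function.update_self, Function.update_self]
        · rw [Function.update_of_ne hqp, Function.update_of_ne hqp] at h
          exact h hqd
      · exact h2 (hqm r h1)

/-- a step of any processor of `EE` creates at most two new members of `DD` -/
lemma step_dirty {b b' : Fin n → Bool} {ω ω' : Fin n → Ω} {C C' : Conf n R V} {j p : Fin n}
    (hp : p ∈ EE j C C') :
    (DD A j (step A b ω C p) (step A b' ω' C' p)).card ≤ (DD A j C C').card + 2 := by
  have key : ∃ N : Finset (Fin n), N.card ≤ 2 ∧
      ∀ r, A.reader r ∉ N → (step A b ω C p).mem r = C.mem r ∧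
        (step A b' ω' C' p).mem r = C'.mem r := by
    rcases step_mem A b ω C p with h1 | ⟨r1, h1⟩ <;> rcases step_mem A b' ω' C' p with h2 | ⟨r2, h2⟩
    · exact ⟨∅, by simp, fun r _ => ⟨by rw [h1], by rw [h2]⟩⟩
    · refine ⟨{A.reader r2}, by simp, fun r hr => ⟨by rw [h1], h2 r (fun h => hr ?_)⟩⟩
      rw [h]; simp
    · refine ⟨{A.reader r1}, by simp, fun r hr => ⟨h1 r (fun h => hr ?_), by rw [h2]⟩⟩
      rw [h]; simp
    · refine ⟨{A.reader r1, A.reader r2}, Finset.card_le_two, fun r hr =>
        ⟨h1 r (fun h => hr ?_), h2 r (fun h => hr ?_)⟩⟩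
      · rw [h]; simp
      · rw [h]; simp
  obtain ⟨N, hN, hNr⟩ := key
  have hsub : DD A j (step A b ω C p) (step A b' ω' C' p) ⊆ DD A j C C' ∪ N := by
    intro q hq
    rw [Finset.mem_union]
    by_contra hn
    push Not at hn
    obtain ⟨hn1, hn2⟩ := hn
    have hqp : q ≠ p := fun h => hn1 (EE_sub_DD A j C C' (h ▸ hp))
    rw [mem_DD] at hq
    rcases hq with h | ⟨r, h1, h2⟩
    · rw [step_EE_ne A hqp] at h
      exact hn1 (EE_sub_DD A j C C' h)
    · have h3 := hNr r (h1 ▸ hn2)
      rw [h3.1, h3.2] at h2
      exact hn1 (mem_DD.mpr (Or.inr ⟨r, h1, h2⟩))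
  exact (Finset.card_le_card hsub).trans ((Finset.card_union_le _ _).trans (by omega))

lemma exec_DD {b b' : Fin n → Bool} {ω ω' : Fin n → Ω} {j : Fin n}
    (hb : ∀ q, q ≠ j → b q = b' q) (hω : ∀ q, q ≠ j → ω q = ω' q) (l : List (Fin n)) :
    ∀ (C C' : Conf n R V), l.Nodup →
      (DD A j (exec A b ω C l) (exec A b' ω' C' l)).card
        ≤ (DD A j C C').card + 2 * ((EE j C C').filter (fun p => p ∈ l)).card := by
  induction l with
  | nil => intro C C' _; simp [exec]
  | cons p l ih =>
    intro C C' hnd
    rw [List.nodup_cons] at hnd
    have h1 := ih (step A b ω C p) (step A b' ω' C' p) hnd.2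
    have h2 : exec A b ω C (p :: l) = exec A b ω (step A b ω C p) l := rfl
    have h3 : exec A b' ω' C' (p :: l) = exec A b' ω' (step A b' ω' C' p) l := rfl
    rw [h2, h3]
    have h4 : ((EE j (step A b ω C p) (step A b' ω' C' p)).filter (fun q => q ∈ l))
        = (EE j C C').filter (fun q => q ∈ l) := by
      ext q
      simp only [Finset.mem_filter]
      constructor
      · rintro ⟨hq, hql⟩
        have : q ≠ p := fun h => hnd.1 (h ▸ hql)
        exact ⟨(step_EE_ne A this).mp hq, hql⟩
      · rintro ⟨hq, hql⟩
        have : q ≠ p := fun h => hnd.1 (h ▸ hql)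
        exact ⟨(step_EE_ne A this).mpr hq, hql⟩
    rw [h4] at h1
    by_cases hp : p ∈ EE j C C'
    · have h5 := step_dirty A (b := b) (b' := b') (ω := ω) (ω' := ω') hp
      have h6 : ((EE j C C').filter (fun q => q ∈ l)).card + 1
          ≤ ((EE j C C').filter (fun q => q ∈ p :: l)).card := by
        have h7 : insert p ((EE j C C').filter (fun q => q ∈ l))
            ⊆ (EE j C C').filter (fun q => q ∈ p :: l) := by
          intro q hq
          rw [Finset.mem_insert, Finset.mem_filter] at hq
          rw [Finset.mem_filter]
          rcases hq with rfl | ⟨hq1, hq2⟩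
          · exact ⟨hp, by simp⟩
          · exact ⟨hq1, by simp [hq2]⟩
        have h8 := Finset.card_le_card h7
        rw [Finset.card_insert_of_notMem (by simp [hnd.1])] at h8
        exact h8
      omega
    · have h5 := Finset.card_le_card (step_clean A hb hω hp)
      have h6 : ((EE j C C').filter (fun q => q ∈ l)).card
          ≤ ((EE j C C').filter (fun q => q ∈ p :: l)).card := by
        refine Finset.card_le_card (fun q hq => ?_)
        rw [Finset.mem_filter] at hq ⊢
        exact ⟨hq.1, by simp [hq.2]⟩
      omega

/-- `s` rounds in which every processor is scheduled once -/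
noncomputable def rounds (b : Fin n → Bool) (ω : Fin n → Ω) : ℕ → Conf n R V
  | 0 => start A
  | s + 1 => exec A b ω (rounds b ω s) (List.finRange n)

lemma rounds_DD {b b' : Fin n → Bool} {ω ω' : Fin n → Ω} {j : Fin n}
    (hb : ∀ q, q ≠ j → b q = b' q) (hω : ∀ q, q ≠ j → ω q = ω' q) (s : ℕ) :
    (DD A j (rounds A b ω s) (rounds A b' ω' s)).card ≤ 3 ^ s := by
  induction s with
  | zero =>
    have : DD A j (rounds A b ω 0) (rounds A b' ω' 0) ⊆ {j} := by
      intro q hq
      rw [mem_DD, mem_EE] at hq
      rcases hq with (h | h | h) | ⟨r, _, h⟩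
      · simpa using h
      · exact absurd rfl h
      · exact absurd rfl h
      · exact absurd rfl h
    simpa using Finset.card_le_card this
  | succ s ih =>
    have h1 := exec_DD A hb hω (List.finRange n) (rounds A b ω s) (rounds A b' ω' s)
      (List.nodup_finRange n)
    have h2 : ((EE j (rounds A b ω s) (rounds A b' ω' s)).filter
        (fun p => p ∈ List.finRange n)).card ≤ (DD A j (rounds A b ω s) (rounds A b' ω' s)).card :=
      (Finset.card_filter_le _ _).trans (Finset.card_le_card (EE_sub_DD A j _ _))
    have h3 : (DD A j (rounds A b ω (s + 1)) (rounds A b' ω' (s + 1))).card ≤ _ := h1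
    rw [pow_succ]
    omega

/-- number of processors with a given property of the output -/
lemma card_dec_diff {b b' : Fin n → Bool} {ω ω' : Fin n → Ω} {j : Fin n}
    (hb : ∀ q, q ≠ j → b q = b' q) (hω : ∀ q, q ≠ j → ω q = ω' q) (s : ℕ) (P : Option Bool → Prop) :
    ((Finset.univ.filter (fun i => P ((rounds A b ω s).dec i))).card : ℝ)
      - ((Finset.univ.filter (fun i => P ((rounds A b' ω' s).dec i))).card : ℝ) ≤ 3 ^ s := by
  have h1 : Finset.univ.filter (fun i => P ((rounds A b ω s).dec i))
      ⊆ Finset.univ.filter (fun i => P ((rounds A b' ω' s).dec i)) ∪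
        DD A j (rounds A b ω s) (rounds A b' ω' s) := by
    intro q hq
    rw [Finset.mem_union]
    by_cases h : (rounds A b ω s).dec q = (rounds A b' ω' s).dec q
    · left
      simpa [← h] using hq
    · right
      exact mem_DD.mpr (Or.inl (mem_EE.mpr (Or.inr (Or.inr h))))
  have h2 := (Finset.card_le_card h1).trans (Finset.card_union_le _ _)
  have h3 := rounds_DD A hb hω s
  have h4 : (Finset.univ.filter (fun i => P ((rounds A b ω s).dec i))).card
      ≤ (Finset.univ.filter (fun i => P ((rounds A b' ω' s).dec i))).card + 3 ^ s := by omega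
  have h5 : ((Finset.univ.filter (fun i => P ((rounds A b ω s).dec i))).card : ℝ)
      ≤ ((Finset.univ.filter (fun i => P ((rounds A b' ω' s).dec i))).card : ℝ) + 3 ^ s := by
    exact_mod_cast h4
  linarith

/-! ### Counting operations -/

/-- an undecided processor has executed one operation per round -/
lemma step_undec (b : Fin n → Bool) (ω : Fin n → Ω) (C : Conf n R V) (p : Fin n)
    (h : (step A b ω C p).dec p = none) :
    C.dec p = none ∧ ((step A b ω C p).hist p).length = (C.hist p).length + 1 := by
  unfold step at h ⊢
  by_cases hs : (C.dec p).isSome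
  · simp only [hs, if_true] at h
    rw [h] at hs
    simp at hs
  · have hn : C.dec p = none := by simpa using hs
    refine ⟨hn, ?_⟩
    simp only [hs, Bool.false_eq_true, if_false] at h ⊢
    cases hact : A.act p (b p) (ω p) (C.hist p) with
    | read r => simp
    | write r v => simp
    | out c =>
      rw [hact] at h
      simp at h

lemma step_dec_mono (b : Fin n → Bool) (ω : Fin n → Ω) (C : Conf n R V) (p q : Fin n)
    (h : (step A b ω C p).dec q = none) : C.dec q = none := by
  by_cases hq : q = p
  · subst hq; exact (step_undec A b ω C q h).1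
  · rw [step_dec_ne A b ω C hq] at h; exact h

lemma exec_undec (b : Fin n → Bool) (ω : Fin n → Ω) (q : Fin n) (l : List (Fin n)) :
    ∀ C : Conf n R V, l.Nodup → (exec A b ω C l).dec q = none →
      C.dec q = none ∧ ((exec A b ω C l).hist q).length
        = (C.hist q).length + (if q ∈ l then 1 else 0) := by
  induction l with
  | nil => intro C _ h; exact ⟨h, by simp [exec]⟩
  | cons p l ih =>
    intro C hnd h
    rw [List.nodup_cons] at hnd
    have h1 := ih (step A b ω C p) hnd.2 h
    have h2 := step_dec_mono A b ω C p q h1.1
    refine ⟨h2, ?_⟩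
    have h3 : ((exec A b ω C (p :: l)).hist q).length
        = ((exec A b ω (step A b ω C p) l).hist q).length := rfl
    rw [h3, h1.2]
    by_cases hq : q = p
    · subst hq
      rw [(step_undec A b ω C q h1.1).2]
      simp [hnd.1]
    · rw [step_hist_ne A b ω C hq]
      simp [hq]

lemma rounds_undec (b : Fin n → Bool) (ω : Fin n → Ω) (q : Fin n) (s : ℕ)
    (h : (rounds A b ω s).dec q = none) : ((rounds A b ω s).hist q).length = s := by
  induction s with
  | zero => rfl
  | succ s ih =>
    have h1 := exec_undec A b ω q (List.finRange n) (rounds A b ω s) (List.nodup_finRange n) h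
    have h2 : ((rounds A b ω (s + 1)).hist q).length = _ := h1.2
    rw [h2, ih h1.1]
    simp

lemma step_ops (b : Fin n → Bool) (ω : Fin n → Ω) (C : Conf n R V) (p : Fin n)
    (h : C.ops = ∑ i, (C.hist i).length) :
    (step A b ω C p).ops = ∑ i, ((step A b ω C p).hist i).length := by
  have key : ∀ x : Option V, ∑ i, ((Function.update C.hist p (x :: C.hist p)) i).length
      = ∑ i, (C.hist i).length + 1 := by
    intro x
    have h1 : ∀ i, ((Function.update C.hist p (x :: C.hist p)) i).length
        = (C.hist i).length + (if i = p then 1 else 0) := by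
      intro i
      by_cases hi : i = p
      · subst hi; simp
      · simp [hi]
    rw [Finset.sum_congr rfl (fun i _ => h1 i), Finset.sum_add_distrib]
    simp
  unfold step
  split_ifs with h1
  · exact h
  · cases A.act p (b p) (ω p) (C.hist p) with
    | read r => simp only [key, h]
    | write r v => simp only [key, h]
    | out c => exact h

lemma exec_ops (b : Fin n → Bool) (ω : Fin n → Ω) (l : List (Fin n)) :
    ∀ C : Conf n R V, C.ops = ∑ i, (C.hist i).length →
      (exec A b ω C l).ops = ∑ i, ((exec A b ω C l).hist i).length := by
  induction l with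
  | nil => intro C h; exact h
  | cons p l ih => intro C h; exact ih _ (step_ops A b ω C p h)

lemma rounds_ops (b : Fin n → Bool) (ω : Fin n → Ω) (s : ℕ) :
    (rounds A b ω s).ops = ∑ i, ((rounds A b ω s).hist i).length := by
  induction s with
  | zero => simp [rounds, start]
  | succ s ih => exact exec_ops A b ω _ _ ih

/-- the number of operations is at least `s` times the number of undecided processors -/
lemma rounds_ops_ge (b : Fin n → Bool) (ω : Fin n → Ω) (s : ℕ) :
    s * (Finset.univ.filter (fun i => (rounds A b ω s).dec i = none)).card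
      ≤ (rounds A b ω s).ops := by
  rw [rounds_ops]
  calc s * (Finset.univ.filter (fun i => (rounds A b ω s).dec i = none)).card
      = ∑ _i ∈ Finset.univ.filter (fun i => (rounds A b ω s).dec i = none), s := by
        rw [Finset.sum_const, smul_eq_mul, mul_comm]
    _ = ∑ i ∈ Finset.univ.filter (fun i => (rounds A b ω s).dec i = none),
        ((rounds A b ω s).hist i).length :=
        Finset.sum_congr rfl (fun i hi =>
          (rounds_undec A b ω i s (Finset.mem_filter.mp hi).2).symm)
    _ ≤ _ := Finset.sum_le_sum_of_subset (Finset.filter_subset _ _)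

/-! ### The round robin schedule -/

/-- the round robin schedule -/
def robin (n : ℕ) (hn : 0 < n) (t : ℕ) : Fin n := ⟨t % n, Nat.mod_lt _ hn⟩

lemma run_add (hn : 0 < n) (b : Fin n → Bool) (ω : Fin n → Ω) (s m : ℕ) (hm : m ≤ n)
    (h : run A b ω (robin n hn) (s * n) = rounds A b ω s) :
    run A b ω (robin n hn) (s * n + m)
      = exec A b ω (rounds A b ω s) ((List.finRange n).take m) := by
  induction m with
  | zero => simpa [exec] using h
  | succ m ih =>
    have h1 := ih (by omega)
    have h2 : (List.finRange n).take (m + 1)
        = (List.finRange n).take m ++ [⟨m, by omega⟩] := by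
      rw [List.take_add_one]
      congr 1
      rw [List.getElem?_eq_getElem (by simpa using hm)]
      simp
    rw [h2]
    unfold exec
    rw [List.foldl_append]
    have h3 : run A b ω (robin n hn) (s * n + (m + 1))
        = step A b ω (run A b ω (robin n hn) (s * n + m)) (robin n hn (s * n + m)) := rfl
    rw [h3, h1]
    have h4 : robin n hn (s * n + m) = ⟨m, by omega⟩ := by
      unfold robin
      ext
      simp only
      rw [Nat.mul_comm, Nat.mul_add_mod, Nat.mod_eq_of_lt (by omega)]
    rw [h4]
    rfl

lemma run_rounds (hn : 0 < n) (b : Fin n → Bool) (ω : Fin n → Ω) (s : ℕ) :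
    run A b ω (robin n hn) (s * n) = rounds A b ω s := by
  induction s with
  | zero => simp [run, rounds]
  | succ s ih =>
    have h1 := run_add A hn b ω s n le_rfl ih
    rw [Nat.succ_mul, h1, List.take_of_length_le (by simp)]
    rfl

end TH171.Cs
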